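import Mathlib
import Pool.Agent.H11.FreudA
import Pool.Agent.H11.FreudB

set_option autoImplicit false

namespace Pool.Agent.Results.MP_d042fc_an.Unique

open Finset Filter Topology MeasureTheory Pool.Agent.H11.Freud
open scoped FourierTransform Real

lemma wint (τ t : ℝ) (j : ℕ) :
    Integrable fun x : ℝ => x ^ j * Real.exp (-x ^ 6 + τ * x ^ 4 + t * x ^ 2) := by
  set A := |τ| + |t| + 1 with hA
  have hA1 : 1 ≤ A := by have := abs_nonneg τ; have := abs_nonneg t; linarith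
  have h1 := (integrable_rpow_mul_exp_neg_mul_sq (b := 1) one_pos (s := j)
    (by have : (0 : ℝ) ≤ j := by positivity
        linarith)).norm.const_mul (Real.exp (2 * A * (2 * A) ^ 2))
  refine h1.mono' (by fun_prop) (Eventually.of_forall fun x => ?_)
  simp only [Real.rpow_natCast, norm_mul, Real.norm_eq_abs, Real.abs_exp]
  rw [mul_left_comm, ← Real.exp_add]
  refine mul_le_mul_of_nonneg_left (Real.exp_le_exp.mpr ?_) (abs_nonneg _)
  set s := x ^ 2 with hs
  have hs0 : 0 ≤ s := by positivity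
  have e1 : x ^ 6 = s ^ 3 := by rw [hs]; ring
  have e2 : x ^ 4 = s ^ 2 := by rw [hs]; ring
  rw [e1, e2]
  have a1 : τ * s ^ 2 ≤ |τ| * s ^ 2 := by gcongr; exact le_abs_self _
  have a2 : t * s ≤ |t| * s := by gcongr; exact le_abs_self _
  have := abs_nonneg τ
  have := abs_nonneg t
  have a3 : |τ| * s ^ 2 ≤ A * s ^ 2 := by gcongr; linarith
  have a4 : (|t| + 1) * s ≤ A * s := by gcongr; linarith
  rcases le_total s (2 * A) with h | h
  · have b1 : s ^ 2 ≤ (2 * A) ^ 2 := by gcongr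
    have b2 : s ≤ (2 * A) ^ 2 := by nlinarith
    have b3 : 0 ≤ s ^ 3 := by positivity
    nlinarith
  · have b1 : s ≤ s ^ 2 := by nlinarith
    have b2 : 2 * A * s ^ 2 ≤ s ^ 3 := by nlinarith
    have b3 : 0 ≤ 2 * A * (2 * A) ^ 2 := by positivity
    nlinarith

lemma core (τ t : ℝ) (φ : ℕ → ℝ → ℂ) (hd : ∀ j ξ, HasDerivAt (φ j) (φ (j + 1) ξ) ξ)
    (hb : ∀ j, ∃ C, ∀ ξ, ‖φ j ξ‖ ≤ C)
    (ho : ∀ (j : ℕ) (ξ : ℝ), ξ * φ j ξ + j * φ (j - 1) ξ =
      -6 * φ (j + 5) ξ - 4 * τ * φ (j + 3) ξ + 2 * t * φ (j + 1) ξ) :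
    ∃ c : ℂ, ∀ j, φ j 0 =
      c * Complex.I ^ j * (∫ x : ℝ, x ^ j * Real.exp (-x ^ 6 + τ * x ^ 4 + t * x ^ 2) : ℝ) := by
  have hdec : ∀ m j, ∃ C, ∀ ξ : ℝ, |ξ| ^ m * ‖φ j ξ‖ ≤ C := by
    intro m
    induction m with
    | zero => simpa using hb
    | succ m ih =>
      intro j
      obtain ⟨C0, h0⟩ := ih (j - 1)
      obtain ⟨C5, h5⟩ := ih (j + 5)
      obtain ⟨C3, h3⟩ := ih (j + 3)
      obtain ⟨C1, h1⟩ := ih (j + 1)
      refine ⟨6 * C5 + 4 * |τ| * C3 + 2 * |t| * C1 + j * C0, fun ξ => ?_⟩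
      have e : (ξ : ℂ) * φ j ξ = -6 * φ (j + 5) ξ - 4 * τ * φ (j + 3) ξ + 2 * t * φ (j + 1) ξ -
          j * φ (j - 1) ξ := by linear_combination ho j ξ
      have e2 : |ξ| * ‖φ j ξ‖ ≤ 6 * ‖φ (j + 5) ξ‖ + 4 * |τ| * ‖φ (j + 3) ξ‖ +
          2 * |t| * ‖φ (j + 1) ξ‖ + j * ‖φ (j - 1) ξ‖ := by
        have : |ξ| * ‖φ j ξ‖ = ‖(ξ : ℂ) * φ j ξ‖ := by simp
        rw [this, e]
        refine (norm_sub_le _ _).trans (add_le_add ((norm_add_le _ _).trans (add_le_add
          ((norm_sub_le _ _).trans (add_le_add ?_ ?_)) ?_)) ?_) <;> simp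
      have hx : 0 ≤ |ξ| ^ m := by positivity
      have e3 := mul_le_mul_of_nonneg_left e2 hx
      have f3 := mul_le_mul_of_nonneg_left (h3 ξ) (abs_nonneg τ)
      have f1 := mul_le_mul_of_nonneg_left (h1 ξ) (abs_nonneg t)
      have f0 := mul_le_mul_of_nonneg_left (h0 ξ) (Nat.cast_nonneg (α := ℝ) j)
      have f5 := h5 ξ
      rw [pow_succ]
      nlinarith
  have hdiff : ∀ j, Differentiable ℝ (φ j) := fun j ξ => (hd j ξ).differentiableAt
  have hcont : ∀ j, Continuous (φ j) := fun j => (hdiff j).continuous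
  have hint : ∀ m j, Integrable fun x : ℝ => x ^ m • φ j x := by
    intro m j
    obtain ⟨C0, h0⟩ := hdec m j
    obtain ⟨C2, h2⟩ := hdec (m + 2) j
    have := hcont j
    refine (integrable_inv_one_add_sq.const_mul (C0 + C2)).mono' (by fun_prop)
      (Eventually.of_forall fun x => ?_)
    rw [← div_eq_mul_inv, le_div_iff₀ (by positivity), norm_smul, norm_pow, Real.norm_eq_abs]
    have := h0 x
    have h3 := h2 x
    rw [pow_add, sq_abs] at h3
    nlinarith
  have hint0 : ∀ j, Integrable (φ j) := fun j => by simpa using hint 0 j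
  have hint1 : Integrable fun x : ℝ => x • φ 0 x := by simpa using hint 1 0
  set f := 𝓕 (φ 0) with hf
  have hF : ∀ j (x : ℝ), 𝓕 (φ j) x = (2 * π * Complex.I * x) ^ j * f x := by
    intro j
    induction j with
    | zero => simp [hf]
    | succ j ih =>
      intro x
      have e : φ (j + 1) = deriv (φ j) := funext fun ξ => (hd j ξ).deriv.symm
      rw [e, Real.fourier_deriv (hint0 j) (hdiff j) (e ▸ hint0 (j + 1))]
      simp only [smul_eq_mul, ih]; ring
  have hfd : ∀ x : ℝ, HasDerivAt f ((2 * π : ℝ) * (-6 * (2 * π * x) ^ 5 + 4 * τ * (2 * π * x) ^ 3 +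
      2 * t * (2 * π * x) : ℝ) * f x) x := by
    intro x
    have h1 := Real.hasDerivAt_fourier (hint0 0) hint1 x
    have h2 : 𝓕 (fun ξ : ℝ => (-2 * π * Complex.I * ξ) • φ 0 ξ) x = -2 * π * Complex.I *
        (-6 * 𝓕 (φ 5) x - 4 * τ * 𝓕 (φ 3) x + 2 * t * 𝓕 (φ 1) x) := by
      have i := fun j => (Real.fourierIntegral_convergent_iff (μ := volume) (f := φ j) x).mpr (hint0 j)
      simp only [Real.fourier_eq]
      rw [← integral_const_mul, ← integral_const_mul, ← integral_const_mul,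
        ← integral_sub ((i 5).const_mul _) ((i 3).const_mul _),
        ← integral_add (by exact ((i 5).const_mul _).sub ((i 3).const_mul _)) ((i 1).const_mul _),
        ← integral_const_mul]
      refine integral_congr_ae (Eventually.of_forall fun ξ => ?_)
      have := ho 0 ξ
      simp only [Circle.smul_def, smul_eq_mul, CharP.cast_eq_zero, zero_mul, add_zero,
        zero_add, Pi.sub_apply] at this ⊢
      linear_combination (-2 * π * Complex.I * (Real.fourierChar (-inner ℝ ξ x) : ℂ)) * this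
    rw [h2, hF, hF, hF] at h1
    refine h1.congr_deriv ?_
    have i2 : Complex.I ^ 2 = -1 := Complex.I_sq
    push_cast
    linear_combination (f x * (2 * π) * (6 * (2 * π * x) ^ 5 * (Complex.I ^ 4 - Complex.I ^ 2 + 1) +
      4 * τ * (2 * π * x) ^ 3 * (Complex.I ^ 2 - 1) - 2 * t * (2 * π * x))) * i2
  set W : ℝ → ℝ := fun y => -y ^ 6 + τ * y ^ 4 + t * y ^ 2 with hW
  have hfx : ∀ x : ℝ, f x = f 0 * (Real.exp (W (2 * π * x)) : ℝ) := by
    have hg : ∀ x : ℝ, HasDerivAt (fun x : ℝ => f x * (Real.exp (-W (2 * π * x)) : ℝ)) 0 x := by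
      intro x
      have h1 : HasDerivAt (fun x : ℝ => -W (2 * π * x)) (-(2 * π * (-6 * (2 * π * x) ^ 5 +
          4 * τ * (2 * π * x) ^ 3 + 2 * t * (2 * π * x)))) x := by
        have h0 : HasDerivAt (fun x : ℝ => 2 * π * x) (2 * π) x := by
          simpa using (hasDerivAt_id x).const_mul (2 * π)
        have := ((((h0.pow 6).neg).add ((h0.pow 4).const_mul τ)).add ((h0.pow 2).const_mul t)).neg
        refine HasDerivAt.congr_deriv this ?_
        push_cast; ring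
      have h2 := (hfd x).mul h1.exp.ofReal_comp
      refine HasDerivAt.congr_deriv h2 ?_
      push_cast; ring
    intro x
    have h3 := is_const_of_deriv_eq_zero (fun x => (hg x).differentiableAt)
      (fun x => (hg x).deriv) x 0
    have h4 : W (2 * π * 0) = 0 := by simp [hW]
    rw [h4, neg_zero, Real.exp_zero, Complex.ofReal_one, mul_one] at h3
    rw [← h3, mul_assoc, ← Complex.ofReal_mul, ← Real.exp_add]
    simp
  refine ⟨f 0 * (|(2 * π)⁻¹| : ℝ), fun j => ?_⟩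
  have hw := wint τ t j
  have hw2 : Integrable fun x : ℝ => (2 * π * x) ^ j * Real.exp (W (2 * π * x)) :=
    hw.comp_mul_left' (R := 2 * π) (by positivity)
  have e : 𝓕 (φ j) = fun x : ℝ => f 0 * Complex.I ^ j *
      (((2 * π * x) ^ j * Real.exp (W (2 * π * x)) : ℝ) : ℂ) := by
    funext x; rw [hF, hfx x]; push_cast; ring
  have h1 := (hint0 j).fourierInv_fourier_eq (by rw [e]; exact hw2.ofReal.const_mul _)
    (v := 0) (hcont j).continuousAt
  rw [← h1, Real.fourierInv_eq, e]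
  simp only [inner_zero_right, AddChar.map_zero_eq_one, one_smul]
  rw [integral_const_mul, integral_complex_ofReal,
    Measure.integral_comp_mul_left (fun y : ℝ => y ^ j * Real.exp (W y)) (2 * π)]
  simp only [hW, smul_eq_mul]
  push_cast; ring

/-- The moments of the symmetric sextic Freud weight with `t = -κτ²`. -/
noncomputable def mu (κ τ : ℝ) (k : ℕ) : ℝ :=
  ∫ x : ℝ, x ^ k * Real.exp (-x ^ 6 + τ * x ^ 4 + (-κ * τ ^ 2) * x ^ 2)

theorem result (κ τ : ℝ) (b : ℕ → ℝ) (h0 : b 0 = 0) (hpos : ∀ n, 1 ≤ n → 0 < b n)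
    (hE : ∀ n, 1 ≤ n →
      6 * b n * (b (n - 2) * b (n - 1) + b (n - 1) ^ 2 + 2 * b (n - 1) * b n + b (n - 1) * b (n + 1)
        + b n ^ 2 + 2 * b n * b (n + 1) + b (n + 1) ^ 2 + b (n + 1) * b (n + 2))
      - 4 * τ * b n * (b (n - 1) + b n + b (n + 1)) - 2 * (-κ * τ ^ 2) * b n = n) :
    b 1 = mu κ τ 2 / mu κ τ 0 ∧ b 2 = mu κ τ 4 / mu κ τ 2 - mu κ τ 2 / mu κ τ 0 := by
  have hP := pearson τ (-κ * τ ^ 2) b h0 hE
  obtain ⟨C, A, hC, hA, hg⟩ := growth τ _ (mom b) hP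
  have hμ : Ent fun k => (mom b k : ℂ) := ent_of_growth _ C A hC hA fun k => by simpa using hg k
  obtain ⟨c, hc⟩ := core τ (-κ * τ ^ 2) (phi (mom b)) (phi_deriv hμ)
    (fun j => ⟨_, phi_bdd hμ (cs b hpos) j⟩) (phi_ode hμ τ _ hP)
  have hm : ∀ j, (mom b j : ℂ) = c * mu κ τ j := fun j => by
    have := hc j
    rw [phi_zero hμ] at this
    apply mul_right_cancel₀ (pow_ne_zero j Complex.I_ne_zero)
    rw [this, mu]; ring
  have e0 := hm 0
  have e2 := hm 2
  have e4 := hm 4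
  rw [mom0] at e0
  rw [mom2] at e2
  rw [mom4] at e4
  have m0 : (mu κ τ 0 : ℂ) ≠ 0 := fun h => by simp [h] at e0
  have m0' : mu κ τ 0 ≠ 0 := by exact_mod_cast m0
  have f2 : b 1 * mu κ τ 0 = mu κ τ 2 := by
    have : (b 1 : ℂ) * mu κ τ 0 = mu κ τ 2 := by
      push_cast at e0; linear_combination (mu κ τ 0 : ℂ) * e2 - (mu κ τ 2 : ℂ) * e0
    exact_mod_cast this
  have f4 : b 1 * (b 1 + b 2) * mu κ τ 0 = mu κ τ 4 := by
    have : (b 1 * (b 1 + b 2) : ℂ) * mu κ τ 0 = mu κ τ 4 := by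
      push_cast at e0 e4; linear_combination (mu κ τ 0 : ℂ) * e4 - (mu κ τ 4 : ℂ) * e0
    exact_mod_cast this
  have hb1 := (hpos 1 le_rfl).ne'
  rw [← f4, ← f2]
  constructor <;> field_simp
  ring

end Pool.Agent.Results.MP_d042fc_an.Unique
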